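import Pool.Statements.S00905
-- import your own Pool.Agent.* helpers here

set_option autoImplicit false
open Pool Pool.MP_207b86_al

namespace Pool.Agent.S00905

/-- The finite centreless group used. -/
abbrev F : Type := Equiv.Perm (Fin 3)

/-- The group: the product of countably many copies of `F`. -/
abbrev G : Type := ℕ → F

/-- Evaluation of a word at `g`. -/
def ev (g : G) : Monoid.Coprod G (FreeGroup Unit) →* G :=
  Monoid.Coprod.lift (MonoidHom.id G) (FreeGroup.lift (fun _ => g))

theorem ev_inl (g a : G) : ev g (Monoid.Coprod.inl a) = a := by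
  simp [ev]

theorem ev_inr (g : G) : ev g (Monoid.Coprod.inr (FreeGroup.of ())) = g := by
  simp [ev]

instance : TopologicalSpace F := ⊥
instance : DiscreteTopology F := ⟨rfl⟩

instance : ContinuousMul F := ⟨continuous_of_discreteTopology⟩
instance : ContinuousInv F := ⟨continuous_of_discreteTopology⟩

theorem continuous_free (w : FreeGroup Unit) :
    Continuous (fun g : G => FreeGroup.lift (fun _ : Unit => g) w) := by
  induction w using FreeGroup.induction_on with
  | C1 => simpa using continuous_const
  | of x => 
      simp only [FreeGroup.lift_apply_of]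
      exact continuous_id
  | inv_of x ih => 
      simp only [map_inv, FreeGroup.lift_apply_of]
      exact continuous_id.inv
  | mul x y hx hy => 
      simp only [map_mul]
      exact hx.mul hy

theorem continuous_ev (w : Monoid.Coprod G (FreeGroup Unit)) :
    Continuous (fun g : G => ev g w) := by
  induction w using Monoid.Coprod.induction_on with
  | inl m => simpa [ev] using continuous_const
  | inr n => 
      simp only [ev, Monoid.Coprod.lift_apply_inr]
      exact continuous_free n
  | mul x y hx hy => 
      simp only [map_mul]
      exact hx.mul hy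

/-- The word `[g, x b⁻¹]` with coefficients supported at coordinate `i`. -/
def wd (i : ℕ) (g b : F) : Monoid.Coprod G (FreeGroup Unit) :=
  Monoid.Coprod.inl (Pi.mulSingle i g) *
    (Monoid.Coprod.inr (FreeGroup.of ()) * Monoid.Coprod.inl (Pi.mulSingle i b⁻¹)) *
    (Monoid.Coprod.inl (Pi.mulSingle i g))⁻¹ *
    (Monoid.Coprod.inr (FreeGroup.of ()) * Monoid.Coprod.inl (Pi.mulSingle i b⁻¹))⁻¹

theorem ev_wd (i : ℕ) (g b : F) (x : G) :
    ev x (wd i g b) = Pi.mulSingle i (g * (x i * b⁻¹) * g⁻¹ * (x i * b⁻¹)⁻¹) := by
  simp only [wd, map_mul, map_inv, ev_inl, ev_inr]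
  funext j
  by_cases h : j = i
  · subst h
    simp
  · simp [Pi.mulSingle_eq_of_ne h]

theorem centreless : ∀ y : F, (∀ g : F, g * y * g⁻¹ * y⁻¹ = 1) → y = 1 := by
  decide

theorem cyl_eq (i : ℕ) (b : F) :
    {x : G | x i = b} = ⋂ g : F, {x : G | ev x (wd i g b) = 1} := by
  ext x
  simp only [Set.mem_setOf_eq, Set.mem_iInter, ev_wd]
  constructor
  · intro h g
    rw [h]
    simp
  · intro h
    have := centreless (x i * b⁻¹) (fun g => by
      have := congrFun (h g) i
      simpa using this)
    exact mul_inv_eq_one.mp this

/-- There is an infinite group whose Zariski topology is both compact and Hausdorff. The closed sets of that topology are generated by solution sets of one-variable equations with constants from the group. -/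
theorem result :
    ∃ (G : Type) (_ : Group G) (T : TopologicalSpace G),
      Infinite G ∧
      T = TopologicalSpace.generateFrom
        {U : Set G | ∃ w : Monoid.Coprod G (FreeGroup Unit),
          U = {g : G | Monoid.Coprod.lift (MonoidHom.id G) (FreeGroup.lift (fun _ => g)) w = 1}ᶜ} ∧
      @CompactSpace G T ∧ @T2Space G T := by
  refine ⟨G, inferInstance, inferInstance, inferInstance, ?_, inferInstance, inferInstance⟩
  apply le_antisymm
  · apply le_generateFrom
    rintro U ⟨w, rfl⟩
    rw [isOpen_compl_iff]
    exact isClosed_eq (continuous_ev w) continuous_const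
  · apply le_iInf
    intro i
    rw [← continuous_iff_le_induced]
    set Z : TopologicalSpace G := TopologicalSpace.generateFrom
        {U : Set G | ∃ w : Monoid.Coprod G (FreeGroup Unit),
          U = {g : G | Monoid.Coprod.lift (MonoidHom.id G) (FreeGroup.lift (fun _ => g)) w = 1}ᶜ} with hZ
    have hcl : ∀ b : F, @IsClosed G Z {x : G | x i = b} := by
      intro b
      rw [cyl_eq]
      refine @isClosed_iInter G F Z _ (fun g => ?_)
      refine @IsClosed.mk G Z _ ?_
      rw [hZ]
      exact TopologicalSpace.isOpen_generateFrom_of_mem ⟨wd i g b, rfl⟩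
    refine @continuous_discrete_rng _ _ Z _ _ _ |>.mpr ?_
    intro b
    have h1 : (fun f : G => f i) ⁻¹' {b} = (⋃ c ∈ {c : F | c ≠ b}, {x : G | x i = c})ᶜ := by
      ext x
      simp only [Set.mem_preimage, Set.mem_singleton_iff, Set.mem_compl_iff, Set.mem_iUnion,
        Set.mem_setOf_eq, not_exists]
      constructor
      · intro h c hc h'
        exact hc (h'.symm.trans h)
      · intro h
        by_contra hx
        exact h (x i) hx rfl
    rw [h1]
    refine @IsClosed.isOpen_compl _ Z _ ?_
    refine @Set.Finite.isClosed_biUnion _ _ Z _ _ (Set.toFinite _) (fun c _ => hcl c)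

end Pool.Agent.S00905
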